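import Pool.Agent.Y842.QY.FinW

/-!
# The coloured prime signature of `n` and the exact value of `Ω(n + h)` are independent (helper842)

Asymptotic independence of `Ω(n)` and `Ω(n + 1)` (MP_e0aac0_nt, `k = 2`), with `Ω` at one of the two integers replaced
by the whole coloured prime signature: the primes are coloured arbitrarily with finitely many colours, and the
signature of `n` is the multiset of the pairs (colour of `p`, exponent of `p`) for the primes `p` dividing `n`. It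
determines `Ω`, `ω`, the number of divisors, and the number of prime factors in each colour class. One can also
multiply by any bounded multiplicative function and any linear phase. Natural averages at almost all scales, partial
sums, and logarithmic averages in total variation over the signature.
-/

set_option autoImplicit false

open Finset Filter

namespace Pool.Agent.Results.MP_e0aac0_nt.ColouredSignatureAndOmega

open Classical in
/-- `E` has logarithmic density zero -/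
def LogDensityZero (E : Set ℕ) : Prop := Tendsto
  (fun X : ℕ => (∑ n ∈ Icc 1 X, if n ∈ E then (1 : ℝ) / n else 0) / Real.log X) atTop (nhds 0)

/-- `e(x) = exp(2 π i x)` -/
noncomputable def e (x : ℝ) : ℂ := Complex.exp (2 * Real.pi * x * Complex.I)

/-- the coloured prime signature of `n`: the multiset of the pairs (colour of `p`, exponent of `p` in `n`) over the
primes `p` dividing `n` -/
def sig {k : ℕ} (χ : ℕ → Fin k) (n : ℕ) : Multiset (Fin k × ℕ) :=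
  n.primeFactors.val.map (fun p => (χ p, n.factorization p))

/-- `Ω(n)`, the number of prime factors counted with multiplicity -/
def Om (n : ℕ) : ℕ := ArithmeticFunction.cardFactors n

/-- `g` is multiplicative with values in the unit disc (on the positive integers) -/
def Mult (g : ℕ → ℂ) : Prop := (∀ n, 1 ≤ n → ‖g n‖ ≤ 1) ∧
  ∀ m n : ℕ, 1 ≤ m → 1 ≤ n → Nat.Coprime m n → g (m * n) = g m * g n

/-- the mean of `B(Ω(n))` over `1 ≤ n ≤ N` -/
noncomputable def mean (B : ℕ → ℂ) (N : ℕ) : ℂ := (∑ n ∈ Icc 1 N, B (Om n)) / N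

/-- **Theorem.** Let `a ≠ c` be shifts and `k` a number of colours. The colouring `χ`, the function
`A : Multiset (Fin k × ℕ) → ℂ` with `|A| ≤ 1`, the function `B : ℕ → ℂ` with `|B| ≤ 1` and the multiplicative
function `g` with `|g| ≤ 1` are arbitrary, and `M_N` is the mean of `B(Ω(n))` over `n ≤ N`.
(A) For `ε > 0` and `X ≥ X₀(ε, a, c, k)`, uniformly in `χ`, `A`, `B`, `g`, real `α_N` and `y_N ≤ N`:
`∑_{N ≤ X} (1/N) (1/N) |∑_{n ≤ y_N} A(sig(n + c)) g(n + c) (B(Ω(n + a)) - M_N) e(α_N n)| ≤ ε log X`.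
(B) Logarithmic averages in total variation over the signatures `s`: for `ε > 0` and `X ≥ X₀(ε, a, c, k)`, uniformly
in `χ`, `B`, `g` and real `α`: `∑_s |∑_{n ≤ X, sig(n + c) = s} g(n + c) (B(Ω(n + a)) - M_n) e(α n) / n| ≤ ε log X`.
(C) For given `χ`, `A`, `B` and `g` there is a set `E` of logarithmic density zero such that for all `a ≠ c` and
`ε > 0` and all large `N` outside `E`, for all real `α` and `y ≤ N`:
`|∑_{n ≤ y} A(sig(n + c)) g(n + c) (B(Ω(n + a)) - M_N) e(α n)| ≤ ε N`. -/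
theorem result :
    (∀ k a c : ℕ, a ≠ c → ∀ ε : ℝ, 0 < ε → ∃ X₀ : ℕ, ∀ X : ℕ, X₀ ≤ X →
      ∀ χ : ℕ → Fin k, ∀ A : Multiset (Fin k × ℕ) → ℂ, (∀ s, ‖A s‖ ≤ 1) → ∀ B : ℕ → ℂ, (∀ l, ‖B l‖ ≤ 1) →
      ∀ g : ℕ → ℂ, Mult g → ∀ (α : ℕ → ℝ) (y : ℕ → ℕ), (∀ N, y N ≤ N) →
        ∑ N ∈ Icc 1 X, ‖∑ n ∈ Icc 1 (y N),
          A (sig χ (n + c)) * g (n + c) * (B (Om (n + a)) - mean B N) * e (α N * n)‖ / (N : ℝ) ^ 2 ≤ ε * Real.log X) ∧
    (∀ k a c : ℕ, a ≠ c → ∀ ε : ℝ, 0 < ε → ∃ X₀ : ℕ, ∀ X : ℕ, X₀ ≤ X →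
      ∀ χ : ℕ → Fin k, ∀ B : ℕ → ℂ, (∀ l, ‖B l‖ ≤ 1) → ∀ g : ℕ → ℂ, Mult g → ∀ α : ℝ,
        ∑ s ∈ (Icc 1 X).image (fun n => sig χ (n + c)),
          ‖∑ n ∈ (Icc 1 X).filter (fun n => sig χ (n + c) = s),
            g (n + c) * (B (Om (n + a)) - mean B n) * e (α * n) / n‖ ≤ ε * Real.log X) ∧
    (∀ (k : ℕ) (χ : ℕ → Fin k) (A : Multiset (Fin k × ℕ) → ℂ), (∀ s, ‖A s‖ ≤ 1) → ∀ B : ℕ → ℂ, (∀ l, ‖B l‖ ≤ 1) →
      ∀ g : ℕ → ℂ, Mult g →
      ∃ E : Set ℕ, LogDensityZero E ∧ ∀ a c : ℕ, a ≠ c → ∀ ε : ℝ, 0 < ε → ∃ N₀ : ℕ, ∀ N : ℕ, N₀ ≤ N → N ∉ E →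
        ∀ (α : ℝ) (y : ℕ), y ≤ N →
          ‖∑ n ∈ Icc 1 y, A (sig χ (n + c)) * g (n + c) * (B (Om (n + a)) - mean B N) * e (α * n)‖ ≤ ε * N) := by
  have hLc : ∀ (k : ℕ) (χ : ℕ → Fin k) (A : Multiset (Fin k × ℕ) → ℂ) (B g : ℕ → ℂ) (a c N y : ℕ) (α : ℝ),
      Pool.Agent.Y842.QY.Lc (fun n => A (Pool.Agent.Y842.QY.csg χ (n + c)) * g (n + c) *
        Pool.Agent.Helper602.MK.ee (α * n)) a N y B =
      ∑ n ∈ Icc 1 y, A (sig χ (n + c)) * g (n + c) * (B (Om (n + a)) - mean B N) * e (α * n) := by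
    intro k χ A B g a c N y α
    unfold Pool.Agent.Y842.QY.Lc
    refine sum_congr rfl fun n _ => ?_
    show A (sig χ (n + c)) * g (n + c) * e (α * n) * (B (Om (n + a)) - mean B N) = _
    ring
  refine ⟨fun k a c hac ε hε => ?_, fun k a c hac ε hε => ?_, fun k χ A hA B hB g hg => ?_⟩
  · obtain ⟨X₀, h4⟩ := Pool.Agent.Y842.QY.pair_B k a c hac ε hε
    refine ⟨X₀, fun X hX χ A hA B hB g hg α y hy => ?_⟩
    have h5 := h4 X hX χ A hA g hg.1 hg.2 B hB α y hy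
    refine le_trans (le_of_eq ?_) h5
    refine sum_congr rfl fun N _ => ?_
    rw [hLc]
  · obtain ⟨X₀, h4⟩ := Pool.Agent.Y842.QY.tvW k a c hac ε hε
    exact ⟨X₀, fun X hX χ B hB g hg α => h4 X hX χ g hg.1 hg.2 B hB α⟩
  · obtain ⟨E, hE, h4⟩ := Pool.Agent.Y842.QY.excW χ A hA g hg.1 hg.2 B hB
    refine ⟨E, hE, fun a c hac ε hε => ?_⟩
    obtain ⟨N₀, h5⟩ := h4 a c hac ε hε
    refine ⟨N₀, fun N hN hNE α y hy => ?_⟩
    have h6 := h5 N hN hNE α y hy
    rw [hLc] at h6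
    exact h6

end Pool.Agent.Results.MP_e0aac0_nt.ColouredSignatureAndOmega
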