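import Pool.Agent.Y956.CQ.FinI

/-!
# Independence of the exact value of Omega at one displaced point and of the exact values along a dilated tuple
-/

set_option autoImplicit false

namespace Pool.Agent.Results.MP_e0aac0_nt.DilatedTuples

open Finset

/-- the value of `a` at the number of prime factors of `m` (with multiplicity), zero for `m ≤ 0` -/
noncomputable def val (a : ℕ → ℂ) (m : ℤ) : ℂ := if 0 < m then a (ArithmeticFunction.cardFactors m.toNat) else 0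

/-- the average over `1 ≤ n ≤ x` -/
noncomputable def avg (f : ℕ → ℂ) (x : ℕ) : ℂ := (1 / (x : ℂ)) * ∑ n ∈ Icc 1 x, f n

/-- the logarithmic average over the scales `Y < x ≤ W` -/
noncomputable def scales (φ : ℕ → ℝ) (Y W : ℕ) : ℝ :=
  (1 / Real.log ((W : ℝ) / Y)) * ∑ x ∈ Ioc Y W, (1 / (x : ℝ)) * φ x

/-- the deviation from independence, over `n ≤ x`, of the value at `n + d` and of the values at `n + h * b i` -/
noncomputable def dev {k : ℕ} (a₀ : ℕ → ℂ) (a : Fin k → ℕ → ℂ) (b : Fin k → ℤ) (h : ℕ) (d : ℤ) (x : ℕ) : ℝ :=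
  ‖avg (fun n => val a₀ (n + d) * ∏ i, val (a i) (n + h * b i)) x -
    avg (fun n => val a₀ n) x * avg (fun n => ∏ i, val (a i) (n + h * b i)) x‖

open Classical in
/-- the exceptional pairs `(h, d)` for the scales between `Y` and `W` -/
noncomputable def exc {k : ℕ} (a₀ : ℕ → ℂ) (a : Fin k → ℕ → ℂ) (b : Fin k → ℤ) (ε : ℝ) (S : Finset (ℕ × ℤ))
    (Y W : ℕ) : Finset (ℕ × ℤ) :=
  S.filter (fun e => ε < scales (dev a₀ a b e.1 e.2) Y W)

lemma val_ext {a : ℕ → ℂ} (ha : ∀ l, ‖a l‖ ≤ 1) :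
    Pool.Agent.Y956.CP.Ext (fun n => a (ArithmeticFunction.cardFactors n)) (val a) := by
  refine ⟨fun m => ?_, fun m hm => ?_⟩
  · unfold val
    split_ifs
    · exact ha _
    · simp
  · unfold val
    rw [if_pos (by exact_mod_cast hm), Int.toNat_natCast]

lemma one_mult : Pool.Agent.Y956.CB.Mult1 (fun _ => 1) :=
  ⟨fun _ => by simp, fun _ _ _ _ _ => by simp⟩

theorem result : ∀ (k : ℕ) (ε : ℝ), 0 < ε → ∃ C : ℝ, ∃ H₀ : ℕ, ∀ (a₀ : ℕ → ℂ) (a : Fin k → ℕ → ℂ) (b : Fin k → ℤ),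
    (∀ l, ‖a₀ l‖ ≤ 1) → (∀ i l, ‖a i l‖ ≤ 1) → ∀ S : Finset (ℕ × ℤ), (∀ e ∈ S, 1 ≤ e.1) →
    (∀ e ∈ S, ∀ e' ∈ S, e ≠ e' → e.2 * (e'.1 : ℤ) ≠ e'.2 * (e.1 : ℤ)) →
    ∃ ω₀ : ℕ, ∀ Y W : ℕ, 1 ≤ Y → ω₀ * Y ≤ W →
      ∑ e ∈ exc a₀ a b ε S Y W, 1 / (e.1 : ℝ) ≤ C ∧
      ∀ H : ℕ, H₀ ≤ H → (((exc a₀ a b ε S Y W).filter (fun e => e.1 ≤ H)).card : ℝ) ≤ ε * H := by
  classical
  intro k ε hε
  obtain ⟨C, _, H₀, _, h⟩ := Pool.Agent.Y956.CQ.fin_omegaI k ε hε
  refine ⟨C, H₀, fun a₀ a b ha₀ ha S hS1 hS2 => ?_⟩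
  obtain ⟨ω₀, h1⟩ := h a₀ ha₀ (fun _ _ => 1) (fun _ => one_mult) a ha (val a₀) (fun i => val (a i)) (val_ext ha₀)
    (fun i => by
      have h2 := val_ext (ha i)
      exact ⟨h2.b, fun m hm => by rw [h2.e m hm, one_mul]⟩) S ⟨hS1, hS2⟩ b
  refine ⟨ω₀, fun Y W hY hW => ?_⟩
  have h2 := h1 Y W hY hW
  have e : S.filter (fun e => ε < Pool.Agent.Y956.CB.WA
      (Pool.Agent.Y956.CQ.gp (fun n => a₀ (ArithmeticFunction.cardFactors n)) (val a₀) (fun i => val (a i)) e.2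
        (fun j => e.1 * b j)) Y W) = exc a₀ a b ε S Y W := by
    unfold exc
    apply filter_congr
    intro e _
    have e1 : Pool.Agent.Y956.CQ.gp (fun n => a₀ (ArithmeticFunction.cardFactors n)) (val a₀) (fun i => val (a i)) e.2
        (fun j => e.1 * b j) = dev a₀ a b e.1 e.2 := by
      funext x
      have e2 : Pool.Agent.Y956.CQ.cI (fun n => a₀ (ArithmeticFunction.cardFactors n)) x =
          avg (fun n => val a₀ n) x := by
        unfold Pool.Agent.Y956.CQ.cI avg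
        congr 1
        apply sum_congr rfl
        intro n hn
        exact ((val_ext ha₀).e n (mem_Icc.1 hn).1).symm
      unfold Pool.Agent.Y956.CQ.gp dev
      rw [e2]
      rfl
    rw [e1]
    rfl
  rw [e] at h2
  exact h2

end Pool.Agent.Results.MP_e0aac0_nt.DilatedTuples
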