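import Pool.Agent.Y842.QY.CluE

/-!
# Exact values of `Ω` at any number of pairs with fixed gaps at moving shifts (helper842)

Asymptotic independence of the values of `Ω` (MP_e0aac0_nt), any number of points: the points form pairs
`n + s_i + a_i`, `n + s_i + c_i` with fixed gaps (for instance two consecutive integers), the shifts `s_1, ..., s_j`
move independently, and there is an arbitrary further factor `F_N(n)` (for instance any bounded function of the values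
of `Ω` at `n, n + 1, ..., n + r`). For almost all shifts, at almost all scales, the average is the product.
-/

set_option autoImplicit false

open Finset Filter

namespace Pool.Agent.Results.MP_e0aac0_nt.PairClusters

open Classical in
/-- `E` has logarithmic density zero -/
def LogDensityZero (E : Set ℕ) : Prop := Tendsto
  (fun X : ℕ => (∑ n ∈ Icc 1 X, if n ∈ E then (1 : ℝ) / n else 0) / Real.log X) atTop (nhds 0)

/-- `Ω(n)`, the number of prime factors counted with multiplicity -/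
def Om (n : ℕ) : ℕ := ArithmeticFunction.cardFactors n

/-- the mean of `B(Ω(n))` over `1 ≤ n ≤ N` -/
noncomputable def mean (B : ℕ → ℂ) (N : ℕ) : ℂ := (∑ n ∈ Icc 1 N, B (Om n)) / N

/-- the discrepancy for the shifts `s_1, ..., s_j ∈ {0, ..., N - 1}`: the absolute value of the difference of
`(1/N) ∑_{n ≤ N} F(n) ∏_i A_i(Ω(n + s_i + c_i)) B_i(Ω(n + s_i + a_i))` and
`(1/N) ∑_{n ≤ N} F(n) ∏_i mean(A_i) mean(B_i)` -/
noncomputable def disc {j : ℕ} (A B : Fin j → ℕ → ℂ) (a c : Fin j → ℕ) (F : ℕ → ℂ) (N : ℕ) (s : Fin j → Fin N) : ℝ :=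
  ‖(∑ n ∈ Icc 1 N, F n * ∏ i, (A i (Om (n + s i + c i)) * B i (Om (n + s i + a i)))) / N -
    (∑ n ∈ Icc 1 N, F n) / N * ∏ i, (mean (A i) N * mean (B i) N)‖

/-- **Theorem.** (1) Let `a_i ≠ c_i` for `i = 1, ..., j`. For `ε > 0` and `X ≥ X₀`, uniformly in all functions
`A_i`, `B_i` and `F_N` bounded by `1`: `∑_{N ≤ X} (1/N) N^{-j} ∑_{s} disc(s) ≤ ε log X`, where `s` runs over
`{0, ..., N - 1}^j`.
(2) For given functions `A_i`, `B_i`, `F_N` bounded by `1` there is a set `E` of logarithmic density zero such that for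
all `a_i ≠ c_i` and `ε > 0` and all large `N` outside `E`: for all but at most `ε N^j` of the
`s ∈ {0, ..., N - 1}^j` the discrepancy is at most `ε`. -/
theorem result :
    (∀ (j : ℕ) (a c : Fin j → ℕ), (∀ i, a i ≠ c i) → ∀ ε : ℝ, 0 < ε → ∃ X₀ : ℕ, ∀ X : ℕ, X₀ ≤ X →
      ∀ A B : Fin j → ℕ → ℂ, (∀ i l, ‖A i l‖ ≤ 1) → (∀ i l, ‖B i l‖ ≤ 1) → ∀ F : ℕ → ℕ → ℂ, (∀ N n, ‖F N n‖ ≤ 1) →
        ∑ N ∈ Icc 1 X, 1 / (N : ℝ) * (1 / (N : ℝ) ^ j * ∑ s : Fin j → Fin N, disc A B a c (F N) N s) ≤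
          ε * Real.log X) ∧
    (∀ (j : ℕ) (A B : Fin j → ℕ → ℂ), (∀ i l, ‖A i l‖ ≤ 1) → (∀ i l, ‖B i l‖ ≤ 1) →
      ∀ F : ℕ → ℕ → ℂ, (∀ N n, ‖F N n‖ ≤ 1) →
      ∃ E : Set ℕ, LogDensityZero E ∧ ∀ a c : Fin j → ℕ, (∀ i, a i ≠ c i) → ∀ ε : ℝ, 0 < ε →
        ∃ N₀ : ℕ, ∀ N : ℕ, N₀ ≤ N → N ∉ E →
          ({s : Fin j → Fin N | ε < disc A B a c (F N) N s}.ncard : ℝ) ≤ ε * (N : ℝ) ^ j) := by
  refine ⟨fun j a c hac ε hε => ?_, fun j A B hA hB F hF => ?_⟩
  · exact Pool.Agent.Y842.QY.clusters j a c hac ε hε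
  · obtain ⟨E, hE, h1⟩ := Pool.Agent.Y842.QY.clu_exc j A B hA hB F hF
    refine ⟨E, hE, fun a c hac ε hε => ?_⟩
    obtain ⟨N₀, h2⟩ := h1 a c hac ε hε
    refine ⟨N₀, fun N hN hNE => ?_⟩
    classical
    have h3 := h2 N hN hNE
    refine le_trans (le_of_eq ?_) h3
    congr 1
    rw [← Set.ncard_coe_finset]
    congr 1
    ext s
    simp only [Set.mem_ofPred_eq, coe_filter, mem_univ, true_and]
    exact Iff.rfl

end Pool.Agent.Results.MP_e0aac0_nt.PairClusters
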