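import Pool.Agent.Y885.KP6

/-!
# Independence of the parities of `Ω(n + a i)` from each other and from arbitrary sets; the shifts are random sums
with up to two fifths of the scales missing
-/

set_option autoImplicit false

namespace Pool.Agent.Results.MP_e0aac0_nt.RandomSumParities

open Finset

/-- The number of prime factors of the absolute value of `m`, counted with multiplicity. -/
def Om (m : ℤ) : ℕ := ArithmeticFunction.cardFactors m.natAbs

open Classical in
/-- The number of the `n ≤ X` in the set `E` for which `Ω(n + a i)` has the same parity as `ε i`, for all `i ∈ I`. -/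
noncomputable def num {s : ℕ} (E : Set ℕ) (a : Fin s → ℤ) (I : Finset (Fin s)) (ε : Fin s → ℕ) (X : ℕ) : ℕ :=
  ((Icc 1 X).filter (fun n => n ∈ E ∧ ∀ i ∈ I, Om (n + a i) ≡ ε i [MOD 2])).card

/-- The set `J` of scales below `k` is rich: it contains more than three fifths of all the scales, more than one half
of the `m` lowest scales, and a positive proportion of the `m` highest scales (the last two conditions are
void for `m ≤ D log k`). -/
structure Rich (δ : ℝ) (D k : ℕ) (J : Finset ℕ) : Prop where
  lt : ∀ j ∈ J, j < k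
  all : (3 / 5 + δ) * k ≤ (J.card : ℝ)
  low : ∀ m ≤ k, (1 / 2 + δ) * m ≤ ((J.filter fun j => j < m).card : ℝ) + D * Real.log k
  high : ∀ m ≤ k, δ * m ≤ ((J.filter fun j => k - m ≤ j).card : ℝ) + D * Real.log k

open Classical in
/-- The probability of the event `Ev` if the `x i j`, for `i < s` and `j < k`, are independent random integers, where
`x i j` takes its values in the finite set `σ i j`, and the value `v` with the probability `p i j v`. -/
noncomputable def Prob (s k : ℕ) (σ : Fin s → ℕ → Finset ℤ) (p : Fin s → ℕ → ℤ → ℝ) (Ev : (Fin s → Fin k → ℤ) → Prop) : ℝ :=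
  ∑ x ∈ Fintype.piFinset (fun i : Fin s => Fintype.piFinset (fun j : Fin k => σ i j)),
    if Ev x then ∏ i, ∏ j : Fin k, p i j (x i j) else 0

/-- Let `b ≥ 2`, `B ≥ 1`, `D`, `κ`, `U`, `η > 0` and `δ > 0` be fixed, let `k` be large, `2 ^ s ≤ k ^ κ`, and let
`J 1, ..., J s` be arbitrary rich sets of scales below `k`. Let the `x i j` (`i < s`, `j < k`) be arbitrary independent
random integers with `|x i j| ≤ B b ^ j` such that, for all `j` in `J i`, no interval of the length `b ^ j / B` contains
`x i j` with a probability larger than `1 - η` (nothing is assumed for the other `j`: these `x i j` may be constants).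
Let `|c i| ≤ B b ^ k` be arbitrary integers, and let `E l`, where `l` ranges over at most `k ^ κ` indices, be arbitrary
sets of positive integers (for example the sets on which `(Ω(n), ..., Ω(n + r))` takes a given value). Then, with
a probability of at least `1 - 1 / k ^ U`, the integers `a i = c i + ∑ j, x i j` have the following property: if none
of them is negative, then for all `l`, all `X ≤ B b ^ k`, all sets `I` of indices and all `ε`, the number of the
`n ≤ X` in `E l` with `Ω(n + a i) ≡ ε i mod 2` for all `i ∈ I` differs from the number of the `n ≤ X` in `E l`, divided by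
`2 ^ |I|`, by at most `b ^ k / k ^ U`. -/
theorem result (b B D κ U : ℕ) (hb : 2 ≤ b) (hB : 1 ≤ B) (η δ : ℝ) (hη : 0 < η) (hδ : 0 < δ) :
    ∃ k₀ : ℕ, ∀ k : ℕ, k₀ ≤ k → ∀ s : ℕ, 2 ^ s ≤ k ^ κ → ∀ J : Fin s → Finset ℕ, (∀ i, Rich δ D k (J i)) →
      ∀ (σ : Fin s → ℕ → Finset ℤ) (p : Fin s → ℕ → ℤ → ℝ),
      (∀ i, ∀ j < k, (∀ x ∈ σ i j, 0 ≤ p i j x ∧ |x| ≤ (B : ℤ) * (b : ℤ) ^ j) ∧ ∑ x ∈ σ i j, p i j x = 1) →
      (∀ i, ∀ j ∈ J i, ∀ y : ℤ, ∑ x ∈ (σ i j).filter (fun x => y ≤ x ∧ (B : ℤ) * (x - y) ≤ (b : ℤ) ^ j), p i j x ≤ 1 - η) →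
      ∀ c : Fin s → ℤ, (∀ i, |c i| ≤ (B : ℤ) * (b : ℤ) ^ k) →
      ∀ L : ℕ, L ≤ k ^ κ → ∀ E : Fin L → Set ℕ,
        Prob s k σ p (fun x => (∀ i, 0 ≤ c i + ∑ j, x i j) ∧
          ¬ ∀ l, ∀ I : Finset (Fin s), ∀ ε : Fin s → ℕ, ∀ X : ℕ, X ≤ B * b ^ k →
            |(num (E l) (fun i => c i + ∑ j, x i j) I ε X : ℝ) -
              (num (E l) (fun i => c i + ∑ j, x i j) ∅ ε X : ℝ) / 2 ^ I.card| ≤ (b : ℝ) ^ k / (k : ℝ) ^ U) ≤
          1 / (k : ℝ) ^ U := by
  classical
  obtain ⟨k₀, h0⟩ := Pool.Agent.Y885.rs_kpt b B D κ U hb hB η δ hη hδ Pool.Agent.Y885.laR Pool.Agent.Y885.fine_lam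
  refine ⟨k₀ + 1, fun k hk s hs J hJ σ p hσ hp c hc L hL E => ?_⟩
  have hk1 : (1 : ℝ) ≤ (k : ℝ) ^ κ := one_le_pow₀ (by exact_mod_cast (by omega : 1 ≤ k))
  have h1 := h0 k (by omega) s hs J σ p c (fun i => ⟨(hJ i).lt, (hJ i).low, (hJ i).high, (hJ i).all⟩) hσ hp hc L hL (fun _ => 1)
    (fun l n => if n ∈ E l then 1 else 0) (fun _ => le_rfl) (by
      intro l n _ _
      refine le_trans ?_ hk1
      split_ifs <;> simp)
    (fun x => (∀ i, 0 ≤ c i + ∑ j, x i j) ∧
          ¬ ∀ l, ∀ I : Finset (Fin s), ∀ ε : Fin s → ℕ, ∀ X : ℕ, X ≤ B * b ^ k →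
            |(num (E l) (fun i => c i + ∑ j, x i j) I ε X : ℝ) -
              (num (E l) (fun i => c i + ∑ j, x i j) ∅ ε X : ℝ) / 2 ^ I.card| ≤ (b : ℝ) ^ k / (k : ℝ) ^ U)
    (Classical.decPred _) (fun x hx hall => hx.2 fun l I ε X hX => by
      have hpos := hx.1
      obtain ⟨a, ha⟩ : ∃ a : Fin s → ℤ, a = fun i => c i + ∑ j, x i j := ⟨_, rfl⟩
      have har : ∀ i, c i + ∑ j, x i j = a i := fun i => by rw [ha]
      simp only [har] at hall hpos ⊢
      have hT0 : 0 ≤ (b : ℝ) ^ k / (k : ℝ) ^ U := by positivity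
      have h5 := Pool.Agent.Y885.pat_count (Icc 1 X) (fun n => if n ∈ E l then (1 : ℝ) else 0)
        (fun (i : Fin s) (n : ℕ) => (-1 : ℝ) ^ Om (n + a i)) I
        (by
          intro i _ n _
          exact neg_one_pow_eq_or ℝ _)
        ((b : ℝ) ^ k / (k : ℝ) ^ U) (by
          intro I' _ hI'
          have h6 := hall l I' hI' X (fun i _ => by rw [one_mul]; exact hX)
          refine le_trans (le_of_eq ?_) h6
          rw [← Real.norm_eq_abs, ← Complex.norm_real]
          congr 1
          push_cast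
          apply sum_congr rfl
          intro n hn
          have hn1 := (mem_Icc.1 hn).1
          congr 1
          · split_ifs <;> simp
          apply prod_congr rfl
          intro i _
          have h8 := hpos i
          unfold Pool.Agent.H373R2.T7.exI
          rw [if_pos (by omega)]
          simp only
          unfold Pool.Agent.Y885.laR Om
          rw [one_mul]
          have h9 : ((n : ℤ) + a i).natAbs = ((n : ℤ) + a i).toNat := by omega
          rw [h9]
          push_cast
          rfl) hT0 (fun i => (-1 : ℝ) ^ ε i) (by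
          intro i _
          exact neg_one_pow_eq_or ℝ _)
      refine le_trans (le_of_eq ?_) h5
      have hpar := Pool.Agent.Y885.neg_pow_eq
      have hnum : ∀ I' : Finset (Fin s), (num (E l) a I' ε X : ℝ) = ∑ n ∈ Icc 1 X, (if n ∈ E l then (1 : ℝ) else 0) *
          ∏ i ∈ I', (if (-1 : ℝ) ^ Om (n + a i) = (-1) ^ ε i then (1 : ℝ) else 0) := by
        intro I'
        unfold num
        rw [card_filter]
        push_cast
        apply sum_congr rfl
        intro n _
        simp only [hpar]
        by_cases h7 : n ∈ E l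
        · rw [if_pos h7, one_mul]
          by_cases h8 : ∀ i ∈ I', Om (n + a i) ≡ ε i [MOD 2]
          · rw [if_pos ⟨h7, h8⟩, eq_comm]
            exact prod_eq_one fun j hj => if_pos (h8 j hj)
          · rw [if_neg (fun h => h8 h.2), eq_comm]
            push Not at h8
            obtain ⟨j, hj, hj2⟩ := h8
            exact prod_eq_zero hj (if_neg hj2)
        · rw [if_neg h7, if_neg (fun h => h7 h.1), zero_mul]
      have h10 : (fun i => c i + ∑ j, x i j) = a := ha.symm
      rw [hnum I, hnum ∅]
      simp only [prod_empty, mul_one])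
  refine le_trans (le_of_eq ?_) h1
  unfold Prob
  apply sum_congr rfl
  intro x _
  split_ifs <;> rfl

end Pool.Agent.Results.MP_e0aac0_nt.RandomSumParities
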